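import Pool.Agent.Helper17.RZ.St4

/-!
# Project RZ (MP_77656e_ag), module D5: the averaging operator
-/

set_option autoImplicit false

open MvPolynomial

namespace Pool.Agent.Helper14.RZ

open Pool.Agent.Helper17.RZ

universe u v

noncomputable section

variable {k : Type u} [Field k]

/-! ### signs -/

theorem sgn_add (m n : ℤ) : sgn k (m + n) = sgn k m * sgn k n := by
  simp [sgn, Int.negOnePow_add]

theorem sgn_mul_self (n : ℤ) : sgn k n * sgn k n = 1 := by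
  rw [← sgn_add]
  simp [sgn, Int.negOnePow_add]

theorem sgn_sub (m n : ℤ) : sgn k (m - n) = sgn k m * sgn k n := by
  simp [sgn, Int.negOnePow_sub]

theorem sgn_nat (n : ℕ) : sgn k (n : ℤ) = (-1) ^ n := by
  rcases Nat.even_or_odd n with h | h
  · have h' : Even (n : ℤ) := by exact_mod_cast h
    simp [sgn, Int.negOnePow_even _ h', h.neg_one_pow]
  · have h' : Odd (n : ℤ) := by exact_mod_cast h
    simp [sgn, Int.negOnePow_odd _ h', h.neg_one_pow]

/-- the product of the signs over `S` -/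
def sS (k : Type u) [Field k] (S : Finset (Fin 4)) (d : Fin 4 → ℤ) : k := ∏ s ∈ S, sgn k (d s)

theorem sS_mul_self (S : Finset (Fin 4)) (d : Fin 4 → ℤ) : sS k S d * sS k S d = 1 := by
  rw [sS, ← Finset.prod_mul_distrib]
  exact Finset.prod_eq_one fun s _ => sgn_mul_self _

theorem sS_sub (S : Finset (Fin 4)) (d d' : Fin 4 → ℤ) :
    sS k S (fun s => d s - d' s) = sS k S d * sS k S d' := by
  rw [sS, sS, sS, ← Finset.prod_mul_distrib]
  exact Finset.prod_congr rfl fun s _ => sgn_sub _ _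

/-! ### substitutions and homogeneous forms -/

theorem hom_sb (c : Fin 4 → Bool × Bool) {g : SS k} {e : Fin 4 → ℕ} (hg : IsWeightedHomogeneous wt g e) :
    IsWeightedHomogeneous wt (sb k c g) e := by
  have h0 : sb k c g = ∑ m ∈ g.support, sb k c (monomial m (coeff m g)) := by
    conv_lhs => rw [g.as_sum, map_sum]
  rw [h0]
  refine (weightedHomogeneousSubmodule k wt e).sum_mem fun m hm => ?_
  rw [mem_weightedHomogeneousSubmodule]
  have hw := hg (mem_support_iff.mp hm)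
  rw [monomial_eq, map_mul, Finsupp.prod, map_prod]
  have h1 : e = 0 + ∑ i ∈ m.support, m i • wt i := by
    rw [zero_add, ← hw, Finsupp.weight_apply, Finsupp.sum]
  rw [h1]
  refine IsWeightedHomogeneous.mul ?_ ?_
  · rw [← algebraMap_eq, AlgHom.commutes, algebraMap_eq]
    exact isWeightedHomogeneous_C wt _
  · refine IsWeightedHomogeneous.prod _ _ _ fun i _ => ?_
    rw [map_pow]
    refine IsWeightedHomogeneous.pow ?_ _
    obtain ⟨s, j⟩ := i
    rw [sb_X]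
    have h2 : wt (s, j) = 0 + wt (s, xor (c s).1 j) := by rw [zero_add]; rfl
    rw [h2]
    refine IsWeightedHomogeneous.mul ?_ (isWeightedHomogeneous_X k wt _)
    split
    · have := isWeightedHomogeneous_C (R := k) wt (-1 : k)
      rwa [map_neg, map_one] at this
    · exact isWeightedHomogeneous_one k wt

theorem eval_sign (F G : SS k →ₐ[k] SS k) (ε : Fin 4 → k)
    (h : ∀ s j, F (X (s, j)) = C (ε s) * G (X (s, j))) {g : SS k} {e : Fin 4 → ℕ}
    (hg : IsWeightedHomogeneous wt g e) : F g = C (∏ s, ε s ^ e s) * G g := by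
  have h0 : ∀ H : SS k →ₐ[k] SS k, H g = ∑ m ∈ g.support, H (monomial m (coeff m g)) := by
    intro H
    conv_lhs => rw [g.as_sum, map_sum]
  rw [h0 F, h0 G, Finset.mul_sum]
  refine Finset.sum_congr rfl fun m hm => ?_
  have hw := hg (mem_support_iff.mp hm)
  rw [monomial_eq, map_mul, map_mul, Finsupp.prod_fintype _ _ (fun i => by simp), map_prod F, map_prod G]
  have hC : ∀ (H : SS k →ₐ[k] SS k) (c : k), H (C c) = C c := by
    intro H c
    rw [← algebraMap_eq, AlgHom.commutes]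
  rw [hC, hC]
  have h1 : ∏ i, F (X i ^ m i) = C (∏ s, ε s ^ e s) * ∏ i, G (X i ^ m i) := by
    have h2 : ∀ i : Fin 4 × Bool, F (X i ^ m i) = C (ε i.1 ^ m i) * G (X i ^ m i) := by
      rintro ⟨s, j⟩
      rw [map_pow, h s j, mul_pow, map_pow, map_pow]
    rw [Finset.prod_congr rfl fun i _ => h2 i, Finset.prod_mul_distrib, ← map_prod]
    congr 2
    rw [Fintype.prod_prod_type]
    refine Finset.prod_congr rfl fun s _ => ?_
    dsimp only
    rw [Finset.prod_pow_eq_pow_sum]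
    congr 1
    have h3 := congrFun hw s
    rw [← h3, Finsupp.weight_apply, Finsupp.sum_fintype _ _ (fun i => by simp), Finset.sum_apply,
      Fintype.sum_prod_type]
    rw [Finset.sum_eq_single s]
    · refine Finset.sum_congr rfl fun j _ => ?_
      simp [wt]
    · intro b _ hb
      refine Finset.sum_eq_zero fun j _ => ?_
      simp [wt, Pi.single_eq_of_ne (Ne.symm hb)]
    · intro h; exact absurd (Finset.mem_univ s) h
  rw [h1]; ring

theorem al_ne {h : SS k} (hh : h ≠ 0) : algebraMap (SS k) (LL k) h ≠ 0 := by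
  simpa using (map_ne_zero_iff _ (IsFractionRing.injective (SS k) (LL k))).mpr hh

theorem al_C (c : k) : algebraMap (SS k) (LL k) (C c) = algebraMap k (LL k) c := by
  rw [← algebraMap_eq, ← IsScalarTower.algebraMap_apply k (SS k) (LL k)]

/-- comparison of two automorphisms on homogeneous elements -/
theorem HD_sign (F G : SS k →ₐ[k] SS k) (Φ Ψ : LL k → LL k)
    (hΦ : ∀ g h, Φ (algebraMap (SS k) (LL k) g / algebraMap (SS k) (LL k) h) =
      algebraMap (SS k) (LL k) (F g) / algebraMap (SS k) (LL k) (F h))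
    (hΨ : ∀ g h, Ψ (algebraMap (SS k) (LL k) g / algebraMap (SS k) (LL k) h) =
      algebraMap (SS k) (LL k) (G g) / algebraMap (SS k) (LL k) (G h))
    (S : Finset (Fin 4)) (h : ∀ s j, F (X (s, j)) = C (if s ∈ S then (-1 : k) else 1) * G (X (s, j)))
    {d : Fin 4 → ℤ} {x : LL k} (hx : x ∈ HD k d) : Φ x = algebraMap k (LL k) (sS k S d) * Ψ x := by
  obtain ⟨g, q, e, e', hh, hg1, hh1, hd, rfl⟩ := hx
  rw [hΦ, hΨ, eval_sign F G _ h hg1, eval_sign F G _ h hh1, map_mul, map_mul, al_C, al_C, mul_div_mul_comm,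
    ← map_div₀]
  congr 2
  have hp : ∀ e : Fin 4 → ℕ, ∏ s, (if s ∈ S then (-1 : k) else 1) ^ e s = ∏ s ∈ S, sgn k (e s : ℤ) := by
    intro e
    have h1 : ∀ s, (if s ∈ S then (-1 : k) else 1) ^ e s = if s ∈ S then sgn k (e s : ℤ) else 1 := by
      intro s
      split
      · rw [sgn_nat]
      · simp
    rw [Finset.prod_congr rfl fun s _ => h1 s, Finset.prod_ite_mem, Finset.univ_inter]
  rw [hp, hp]
  have h2 : sS k S d = (∏ s ∈ S, sgn k (e s : ℤ)) * ∏ s ∈ S, sgn k (e' s : ℤ) := by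
    rw [← Finset.prod_mul_distrib]
    refine Finset.prod_congr rfl fun s _ => ?_
    rw [← hd s, sgn_sub]
  rw [h2]
  have h3 : (∏ s ∈ S, sgn k (e' s : ℤ)) * ∏ s ∈ S, sgn k (e' s : ℤ) = 1 :=
    sS_mul_self S (fun s => (e' s : ℤ))
  have h4 : (∏ s ∈ S, sgn k (e' s : ℤ)) ≠ 0 := left_ne_zero_of_mul_eq_one h3
  rw [div_eq_iff h4, mul_assoc, h3, mul_one]

theorem ga_div (a : Fin 4) (g h : SS k) :
    ga k a (algebraMap (SS k) (LL k) g / algebraMap (SS k) (LL k) h) =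
      algebraMap (SS k) (LL k) (sb k (code a) g) / algebraMap (SS k) (LL k) (sb k (code a) h) := by
  rw [map_div₀, ga_algebraMap, ga_algebraMap]

theorem ga_sq (a : Fin 4) {d : Fin 4 → ℤ} {x : LL k} (hx : x ∈ HD k d) :
    ga k a (ga k a x) = algebraMap k (LL k) (sS k (kap a) d) * x := by
  refine HD_sign (k := k) ((sb k (code a)).comp (sb k (code a))) (AlgHom.id k _)
    (fun x => ga k a (ga k a x)) id ?_ ?_ (kap a) ?_ hx
  · intro g h
    simp only [ga_div, AlgHom.comp_apply]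
  · intro g h; rfl
  · intro s j
    simp only [AlgHom.comp_apply, AlgHom.id_apply]
    rw [sb_X]
    have hm : s ∈ kap a ↔ code a s = (true, true) := by simp [kap]
    rcases h : code a s with ⟨x, y⟩
    rw [h] at hm
    cases x <;> cases y <;> cases j <;> simp [sb_X, h, hm]

theorem ga_comm (a b : Fin 4) {d : Fin 4 → ℤ} {x : LL k} (hx : x ∈ HD k d) :
    ga k a (ga k b x) = algebraMap k (LL k) (sS k (ant a b) d) * ga k b (ga k a x) := by
  refine HD_sign (k := k) ((sb k (code a)).comp (sb k (code b))) ((sb k (code b)).comp (sb k (code a)))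
    (fun x => ga k a (ga k b x)) (fun x => ga k b (ga k a x)) ?_ ?_ (ant a b) ?_ hx
  · intro g h
    simp only [ga_div, AlgHom.comp_apply]
  · intro g h
    simp only [ga_div, AlgHom.comp_apply]
  · intro s j
    simp only [AlgHom.comp_apply]
    have hm : s ∈ ant a b ↔ code a s ≠ code b s ∧ code a s ≠ (false, false) ∧ code b s ≠ (false, false) := by
      simp [ant]
    rcases h : code a s with ⟨x, y⟩
    rcases h' : code b s with ⟨x', y'⟩
    rw [h, h'] at hm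
    cases x <;> cases y <;> cases x' <;> cases y' <;> cases j <;> simp [sb_X, h, h', hm]

theorem ga_HD (a : Fin 4) {d : Fin 4 → ℤ} {x : LL k} (hx : x ∈ HD k d) : ga k a x ∈ HD k d := by
  obtain ⟨g, h, e, e', hh, hg1, hh1, hd, rfl⟩ := hx
  refine ⟨sb k (code a) g, sb k (code a) h, e, e', ?_, hom_sb _ hg1, hom_sb _ hh1, hd, ga_div a g h⟩
  intro h0
  exact hh ((sb_bijective k (code a)).1 (by rw [h0, map_zero]))

theorem sb_lt (c : Fin 4 → Bool × Bool) (s : Fin 4) (i : Fin 5) :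
    sb k c (lt k s i) = C ((lsg (c s) i : ℤ) : k) * lt k s i := by
  rcases h : c s with ⟨x, y⟩
  fin_cases i <;> cases x <;> cases y <;> simp [lt, lsg, sb_X, h, map_mul, map_pow, map_add, map_sub] <;> ring

theorem sb_fw (a : Fin 4) {w : Fin 4 → Fin 5} (hw : Good w) : sb k (code a) (fw k w) = fw k w := by
  rw [fw, map_prod]
  rw [Finset.prod_congr rfl fun s _ => sb_lt (k := k) (code a) s (w s), Finset.prod_mul_distrib, ← map_prod,
    ← Int.cast_prod, hw a]
  simp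

theorem sb_fs (a : Fin 4) (σ : Finset GW) : sb k (code a) (fs k σ) = fs k σ := by
  rw [fs, map_prod]
  exact Finset.prod_congr rfl fun w _ => sb_fw a w.2

theorem ga_Dn (a : Fin 4) (σ : Finset GW) {x : LL k} (hx : x ∈ Dn k (fs k σ)) :
    ga k a x ∈ Dn k (fs k σ) := by
  obtain ⟨N, g, hg⟩ := hx
  refine ⟨N, sb k (code a) g, ?_⟩
  have h := congrArg (ga k a) hg
  rw [map_mul, map_pow, ga_algebraMap, ga_algebraMap, sb_fs] at h
  exact h

/-! ### matrices -/

/-- scalar matrices over the field of fractions -/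
def ml {J J' : Type} (R : Matrix J J' k) : Matrix J J' (LL k) := R.map (algebraMap k (LL k))

theorem ml_apply {J J' : Type} (R : Matrix J J' k) (i : J) (j : J') :
    ml R i j = algebraMap k (LL k) (R i j) := rfl

theorem ml_mul {J J' J'' : Type} [Fintype J'] (R : Matrix J J' k) (R' : Matrix J' J'' k) :
    ml (R * R') = ml R * ml R' := Matrix.map_mul

theorem ml_one {J : Type} [DecidableEq J] : ml (1 : Matrix J J k) = 1 :=
  Matrix.map_one _ (map_zero _) (map_one _)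

theorem ml_ga {J J' : Type} (R : Matrix J J' k) (a : Fin 4) : (ml R).map (ga k a) = ml R := by
  ext i j
  simp only [ml, Matrix.map_apply, AlgEquiv.commutes]

/-- the diagonal matrix of signs -/
def Dg (X : YObj k) (S : Finset (Fin 4)) : Matrix X.J X.J k := Matrix.diagonal fun j => sS k S (X.tw j)

theorem Dg_mul_self (X : YObj k) (S : Finset (Fin 4)) : Dg X S * Dg X S = 1 := by
  rw [Dg, Matrix.diagonal_mul_diagonal, ← Matrix.diagonal_one]
  congr 1
  funext j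
  exact sS_mul_self S _

theorem Dg_rho (X : YObj k) (S : Finset (Fin 4)) (a : Fin 4) : Dg X S * X.rho a = X.rho a * Dg X S := by
  ext i j
  rw [Dg, Matrix.diagonal_mul, Matrix.mul_diagonal]
  by_cases h : X.rho a i j = 0
  · rw [h]; ring
  · rw [(X.rho_gr a i j h).2]; ring

theorem rho_sq' (X : YObj k) (a : Fin 4) : X.rho a * X.rho a = Dg X (kap a) := X.rho_sq a

theorem rho_comm' (X : YObj k) (a b : Fin 4) :
    X.rho a * X.rho b = Dg X (ant a b) * (X.rho b * X.rho a) := X.rho_comm a b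

theorem rho_right (X : YObj k) (a : Fin 4) : X.rho a * (X.rho a * Dg X (kap a)) = 1 := by
  rw [← Matrix.mul_assoc, rho_sq', Dg_mul_self]

theorem rho_inv (X : YObj k) (a : Fin 4) : (X.rho a)⁻¹ = X.rho a * Dg X (kap a) :=
  Matrix.inv_eq_right_inv (rho_right X a)

theorem rho_mul_inv (X : YObj k) (a : Fin 4) : X.rho a * (X.rho a)⁻¹ = 1 := by
  rw [rho_inv, rho_right]

theorem rho_inv_mul (X : YObj k) (a : Fin 4) : (X.rho a)⁻¹ * X.rho a = 1 := by
  rw [rho_inv, Matrix.mul_assoc, Dg_rho, ← Matrix.mul_assoc, rho_sq', Dg_mul_self]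

theorem rho_inv_sq (X : YObj k) (a : Fin 4) : (X.rho a)⁻¹ * (X.rho a)⁻¹ = Dg X (kap a) := by
  rw [rho_inv, Matrix.mul_assoc, ← Matrix.mul_assoc (Dg X (kap a)), Dg_rho, Matrix.mul_assoc,
    Dg_mul_self, Matrix.mul_one, rho_sq']

theorem Dg_rho_inv (X : YObj k) (S : Finset (Fin 4)) (a : Fin 4) :
    Dg X S * (X.rho a)⁻¹ = (X.rho a)⁻¹ * Dg X S := by
  rw [rho_inv, ← Matrix.mul_assoc, Dg_rho, Matrix.mul_assoc, Matrix.mul_assoc]
  congr 1
  rw [Dg, Dg, Matrix.diagonal_mul_diagonal, Matrix.diagonal_mul_diagonal]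
  congr 1
  funext j
  ring

theorem rho_inv_comm (X : YObj k) (a b : Fin 4) :
    (X.rho b)⁻¹ * (X.rho a)⁻¹ = (X.rho a)⁻¹ * (X.rho b)⁻¹ * Dg X (ant a b) := by
  have h := rho_comm' X a b
  have h1 : (X.rho a)⁻¹ * (X.rho b)⁻¹ * Dg X (ant a b) * (X.rho a * X.rho b) = 1 := by
    rw [h, Matrix.mul_assoc ((X.rho a)⁻¹ * (X.rho b)⁻¹), ← Matrix.mul_assoc (Dg X (ant a b)), Dg_mul_self,
      Matrix.one_mul, Matrix.mul_assoc, ← Matrix.mul_assoc (X.rho b)⁻¹, rho_inv_mul, Matrix.one_mul,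
      rho_inv_mul]
  calc (X.rho b)⁻¹ * (X.rho a)⁻¹
      = ((X.rho a)⁻¹ * (X.rho b)⁻¹ * Dg X (ant a b) * (X.rho a * X.rho b)) * ((X.rho b)⁻¹ * (X.rho a)⁻¹) := by
        rw [h1, Matrix.one_mul]
    _ = (X.rho a)⁻¹ * (X.rho b)⁻¹ * Dg X (ant a b) * (X.rho a * (X.rho b * (X.rho b)⁻¹) * (X.rho a)⁻¹) := by
        simp only [Matrix.mul_assoc]
    _ = (X.rho a)⁻¹ * (X.rho b)⁻¹ * Dg X (ant a b) := by
        rw [rho_mul_inv, Matrix.mul_one, rho_mul_inv, Matrix.mul_one]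

/-- conjugation on matrices -/
def Tm (X Y : YObj k) (a : Fin 4) (M : Matrix Y.J X.J (LL k)) : Matrix Y.J X.J (LL k) :=
  ml (Y.rho a) * M.map (ga k a) * ml (X.rho a)⁻¹

theorem mat_TT (X Y : YObj k) (a : Fin 4) (φ : X.G.V →ₗ[LL k] Y.G.V) :
    YObj.mat (TT X Y a φ) = Tm X Y a (YObj.mat φ) := YObj.mat_lin (X := X) (Y := Y) _

theorem Tm_add (X Y : YObj k) (a : Fin 4) (M N : Matrix Y.J X.J (LL k)) :
    Tm X Y a (M + N) = Tm X Y a M + Tm X Y a N := by
  rw [Tm, Matrix.map_add _ (fun x y => map_add (ga k a) x y), Matrix.mul_add, Matrix.add_mul]; rfl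

theorem Tm_smul (X Y : YObj k) (a : Fin 4) (c : k) (M : Matrix Y.J X.J (LL k)) :
    Tm X Y a (c • M) = c • Tm X Y a M := by
  have h : (c • M).map (ga k a) = c • M.map (ga k a) := by ext i j; simp
  rw [Tm, h, Matrix.mul_smul, Matrix.smul_mul]; rfl

theorem Tm_mul (X Y W : YObj k) (a : Fin 4) (M : Matrix W.J Y.J (LL k)) (N : Matrix Y.J X.J (LL k)) :
    Tm X W a (M * N) = Tm Y W a M * Tm X Y a N := by
  have h : (M * N).map (ga k a) = M.map (ga k a) * N.map (ga k a) := by rw [Matrix.map_mul]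
  have h1 : ml (Y.rho a)⁻¹ * ml (Y.rho a) = 1 := by rw [← ml_mul, rho_inv_mul, ml_one]
  calc Tm X W a (M * N) = ml (W.rho a) * (M.map (ga k a) * (1 : Matrix Y.J Y.J (LL k)) * N.map (ga k a)) *
        ml (X.rho a)⁻¹ := by
        rw [Tm, h, Matrix.mul_one]
    _ = Tm Y W a M * Tm X Y a N := by
        rw [← h1, Tm, Tm]
        simp only [Matrix.mul_assoc]

theorem Tm_of_mem {X Y : YObj k} {σ : Finset GW} {φ : X.G.V →ₗ[LL k] Y.G.V} (h : φ ∈ X.H Y σ)
    (a : Fin 4) : Tm X Y a (YObj.mat φ) = YObj.mat φ := by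
  have h1 : ml (Y.rho a) * (YObj.mat φ).map (ga k a) = YObj.mat φ * ml (X.rho a) := h.2 a
  rw [Tm, h1, Matrix.mul_assoc, ← ml_mul, rho_mul_inv, ml_one, Matrix.mul_one]

/-- homogeneous matrices -/
def HM (X Y : YObj k) (M : Matrix Y.J X.J (LL k)) : Prop :=
  ∀ i j, M i j ∈ HD k (fun s => Y.tw i s - X.tw j s)

/-- matrices with denominators powers of `fs σ` -/
def DM (X Y : YObj k) (σ : Finset GW) (M : Matrix Y.J X.J (LL k)) : Prop :=
  ∀ i j, M i j ∈ Dn k (fs k σ)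

theorem HD_smul' {d : Fin 4 → ℤ} {x : LL k} (c : k) (hx : x ∈ HD k d) :
    algebraMap k (LL k) c * x ∈ HD k d := by
  rw [← Algebra.smul_def]; exact (HD k d).smul_mem c hx

theorem rho_inv_tw (X : YObj k) (a : Fin 4) (i j : X.J) (h : (X.rho a)⁻¹ i j ≠ 0) : X.tw i = X.tw j := by
  rw [rho_inv, Dg, Matrix.mul_diagonal] at h
  exact (X.rho_gr a i j (left_ne_zero_of_mul h)).2

theorem HM.T {X Y : YObj k} {M : Matrix Y.J X.J (LL k)} (h : HM X Y M) (a : Fin 4) :
    HM X Y (Tm X Y a M) := by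
  intro i j
  rw [Tm, Matrix.mul_apply]
  refine Submodule.sum_mem _ fun j' _ => ?_
  by_cases h1 : (X.rho a)⁻¹ j' j = 0
  · rw [ml_apply, h1, map_zero, mul_zero]; exact Submodule.zero_mem _
  · rw [mul_comm, ← rho_inv_tw X a j' j h1]
    refine HD_smul' _ ?_
    rw [Matrix.mul_apply]
    refine Submodule.sum_mem _ fun i' _ => ?_
    by_cases h2 : Y.rho a i i' = 0
    · rw [ml_apply, h2, map_zero, zero_mul]; exact Submodule.zero_mem _
    · rw [(Y.rho_gr a i i' h2).2]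
      exact HD_smul' _ (ga_HD a (h i' j'))

theorem DM.T {X Y : YObj k} {σ : Finset GW} {M : Matrix Y.J X.J (LL k)} (h : DM X Y σ M) (a : Fin 4) :
    DM X Y σ (Tm X Y a M) := by
  intro i j
  rw [Tm, Matrix.mul_apply]
  refine Subalgebra.sum_mem _ fun j' _ => (Dn k _).mul_mem ?_ ((Dn k _).algebraMap_mem _)
  rw [Matrix.mul_apply]
  exact Subalgebra.sum_mem _ fun i' _ => (Dn k _).mul_mem ((Dn k _).algebraMap_mem _) (ga_Dn a σ (h i' j'))

theorem HM.add {X Y : YObj k} {M N : Matrix Y.J X.J (LL k)} (h : HM X Y M) (h' : HM X Y N) :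
    HM X Y (M + N) := fun i j => Submodule.add_mem _ (h i j) (h' i j)

theorem HM.smul {X Y : YObj k} {M : Matrix Y.J X.J (LL k)} (h : HM X Y M) (c : k) :
    HM X Y (c • M) := fun i j => Submodule.smul_mem _ _ (h i j)

theorem DM.add {X Y : YObj k} {σ : Finset GW} {M N : Matrix Y.J X.J (LL k)} (h : DM X Y σ M)
    (h' : DM X Y σ N) : DM X Y σ (M + N) := fun i j => Subalgebra.add_mem _ (h i j) (h' i j)

theorem DM.smul {X Y : YObj k} {σ : Finset GW} {M : Matrix Y.J X.J (LL k)} (h : DM X Y σ M) (c : k) :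
    DM X Y σ (c • M) := fun i j => Subalgebra.smul_mem _ (h i j) _

theorem HM_conj {X Y : YObj k} {M N : Matrix Y.J X.J (LL k)} (S : Finset (Fin 4))
    (h : ∀ i j, M i j = algebraMap k (LL k) (sS k S (fun s => Y.tw i s - X.tw j s)) * N i j) :
    M = ml (Dg Y S) * N * ml (Dg X S) := by
  ext i j
  have e1 : ml (Dg Y S) = Matrix.diagonal fun i => algebraMap k (LL k) (sS k S (Y.tw i)) := by
    rw [ml, Dg, Matrix.diagonal_map (map_zero _)]
  have e2 : ml (Dg X S) = Matrix.diagonal fun i => algebraMap k (LL k) (sS k S (X.tw i)) := by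
    rw [ml, Dg, Matrix.diagonal_map (map_zero _)]
  rw [e1, e2, Matrix.mul_diagonal, Matrix.diagonal_mul, h i j, sS_sub, map_mul]
  ring

theorem map_three {J1 J2 J3 J4 : Type} [Fintype J2] [Fintype J3] (a : Fin 4) (P : Matrix J1 J2 k)
    (M : Matrix J2 J3 (LL k)) (Q : Matrix J3 J4 k) :
    (ml P * M * ml Q).map (ga k a) = ml P * M.map (ga k a) * ml Q := by
  have h : (ml P * M * ml Q).map (ga k a) = (ml P).map (ga k a) * M.map (ga k a) * (ml Q).map (ga k a) := by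
    rw [Matrix.map_mul, Matrix.map_mul]
  rw [h, ml_ga, ml_ga]

theorem HM.Tm_sq {X Y : YObj k} {M : Matrix Y.J X.J (LL k)} (h : HM X Y M) (a : Fin 4) :
    Tm X Y a (Tm X Y a M) = M := by
  have h1 : (M.map (ga k a)).map (ga k a) = ml (Dg Y (kap a)) * M * ml (Dg X (kap a)) :=
    HM_conj (kap a) fun i j => by simp only [Matrix.map_apply]; exact ga_sq a (h i j)
  have e1 : ml (Y.rho a) * ml (Y.rho a) = ml (Dg Y (kap a)) := by rw [← ml_mul, rho_sq']
  have e2 : ml (X.rho a)⁻¹ * ml (X.rho a)⁻¹ = ml (Dg X (kap a)) := by rw [← ml_mul, rho_inv_sq]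
  have e3 : ml (Dg Y (kap a)) * ml (Dg Y (kap a)) = 1 := by rw [← ml_mul, Dg_mul_self, ml_one]
  have e4 : ml (Dg X (kap a)) * ml (Dg X (kap a)) = 1 := by rw [← ml_mul, Dg_mul_self, ml_one]
  calc Tm X Y a (Tm X Y a M)
      = (ml (Y.rho a) * ml (Y.rho a)) * (M.map (ga k a)).map (ga k a) *
          (ml (X.rho a)⁻¹ * ml (X.rho a)⁻¹) := by
        rw [Tm, Tm, map_three]
        simp only [Matrix.mul_assoc]
    _ = (ml (Dg Y (kap a)) * ml (Dg Y (kap a))) * M * (ml (Dg X (kap a)) * ml (Dg X (kap a))) := by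
        rw [h1, e1, e2]
        simp only [Matrix.mul_assoc]
    _ = M := by rw [e3, e4, Matrix.one_mul, Matrix.mul_one]

theorem HM.Tm_comm {X Y : YObj k} {M : Matrix Y.J X.J (LL k)} (h : HM X Y M) (a b : Fin 4) :
    Tm X Y a (Tm X Y b M) = Tm X Y b (Tm X Y a M) := by
  set D := ml (Dg Y (ant a b)) with hD
  set D' := ml (Dg X (ant a b)) with hD'
  set N := (M.map (ga k a)).map (ga k b) with hN
  have h1 : (M.map (ga k b)).map (ga k a) = D * N * D' :=
    HM_conj (ant a b) fun i j => by simp only [hN, Matrix.map_apply]; exact ga_comm a b (h i j)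
  have e1 : ml (Y.rho a) * ml (Y.rho b) = D * (ml (Y.rho b) * ml (Y.rho a)) := by
    rw [hD, ← ml_mul, ← ml_mul, ← ml_mul, rho_comm']
  have e2 : ml (X.rho b)⁻¹ * ml (X.rho a)⁻¹ = ml (X.rho a)⁻¹ * ml (X.rho b)⁻¹ * D' := by
    rw [hD', ← ml_mul, ← ml_mul, ← ml_mul, rho_inv_comm]
  have e3 : D * D = 1 := by rw [hD, ← ml_mul, Dg_mul_self, ml_one]
  have e4 : D' * D' = 1 := by rw [hD', ← ml_mul, Dg_mul_self, ml_one]
  have e5 : ∀ c, D * ml (Y.rho c) = ml (Y.rho c) * D := fun c => by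
    rw [hD, ← ml_mul, Dg_rho, ml_mul]
  have e6 : ∀ c, D' * ml (X.rho c)⁻¹ = ml (X.rho c)⁻¹ * D' := fun c => by
    rw [hD', ← ml_mul, Dg_rho_inv, ml_mul]
  have e7 : D * (ml (Y.rho b) * ml (Y.rho a)) * D = ml (Y.rho b) * ml (Y.rho a) := by
    rw [← Matrix.mul_assoc, e5, Matrix.mul_assoc (ml (Y.rho b)), e5, ← Matrix.mul_assoc, Matrix.mul_assoc,
      e3, Matrix.mul_one]
  have e8 : D' * (ml (X.rho a)⁻¹ * ml (X.rho b)⁻¹ * D') = ml (X.rho a)⁻¹ * ml (X.rho b)⁻¹ := by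
    rw [← Matrix.mul_assoc, ← Matrix.mul_assoc, e6, Matrix.mul_assoc (ml (X.rho a)⁻¹), e6,
      ← Matrix.mul_assoc, Matrix.mul_assoc, e4, Matrix.mul_one]
  calc Tm X Y a (Tm X Y b M)
      = (ml (Y.rho a) * ml (Y.rho b)) * (M.map (ga k b)).map (ga k a) *
          (ml (X.rho b)⁻¹ * ml (X.rho a)⁻¹) := by
        rw [Tm, Tm, map_three]
        simp only [Matrix.mul_assoc]
    _ = (D * (ml (Y.rho b) * ml (Y.rho a)) * D) * N * (D' * (ml (X.rho a)⁻¹ * ml (X.rho b)⁻¹ * D')) := by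
        rw [h1, e1, e2]
        simp only [Matrix.mul_assoc]
    _ = (ml (Y.rho b) * ml (Y.rho a)) * N * (ml (X.rho a)⁻¹ * ml (X.rho b)⁻¹) := by rw [e7, e8]
    _ = Tm X Y b (Tm X Y a M) := by
        rw [Tm, Tm, map_three]
        simp only [Matrix.mul_assoc]
        rfl

/-! ### the averaging operators -/

/-- averaging of matrices over one generator -/
def Am (X Y : YObj k) (a : Fin 4) (M : Matrix Y.J X.J (LL k)) : Matrix Y.J X.J (LL k) :=
  (2 : k)⁻¹ • (M + Tm X Y a M)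

theorem mat_av1 (X Y : YObj k) (a : Fin 4) (φ : X.G.V →ₗ[LL k] Y.G.V) :
    YObj.mat (av1 X Y a φ) = Am X Y a (YObj.mat φ) := by
  rw [av1, YObj.mat_smul, YObj.mat_add, mat_TT]; rfl

theorem mat_av (X Y : YObj k) (φ : X.G.V →ₗ[LL k] Y.G.V) :
    YObj.mat (av X Y φ) = Am X Y 0 (Am X Y 1 (Am X Y 2 (Am X Y 3 (YObj.mat φ)))) := by
  rw [av, mat_av1, mat_av1, mat_av1, mat_av1]

theorem HM.A {X Y : YObj k} {M : Matrix Y.J X.J (LL k)} (h : HM X Y M) (a : Fin 4) :
    HM X Y (Am X Y a M) := (h.add (h.T a)).smul _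

theorem DM.A {X Y : YObj k} {σ : Finset GW} {M : Matrix Y.J X.J (LL k)} (h : DM X Y σ M) (a : Fin 4) :
    DM X Y σ (Am X Y a M) := (h.add (h.T a)).smul _

theorem HM.Tm_Am {X Y : YObj k} {M : Matrix Y.J X.J (LL k)} (h : HM X Y M) (a : Fin 4) :
    Tm X Y a (Am X Y a M) = Am X Y a M := by
  rw [Am, Tm_smul, Tm_add, h.Tm_sq, add_comm]

theorem HM.Tm_Am' {X Y : YObj k} {M : Matrix Y.J X.J (LL k)} (h : HM X Y M) (a b : Fin 4) :
    Tm X Y a (Am X Y b M) = Am X Y b (Tm X Y a M) := by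
  rw [Am, Tm_smul, Tm_add, h.Tm_comm a b]; rfl

theorem Am_fix {X Y : YObj k} (h2 : (2 : k) ≠ 0) {M : Matrix Y.J X.J (LL k)} (a : Fin 4)
    (h : Tm X Y a M = M) : Am X Y a M = M := by
  rw [Am, h, ← two_smul k M, smul_smul, inv_mul_cancel₀ h2, one_smul]

theorem Am_add (X Y : YObj k) (a : Fin 4) (M N : Matrix Y.J X.J (LL k)) :
    Am X Y a (M + N) = Am X Y a M + Am X Y a N := by
  rw [Am, Am, Am, Tm_add, ← smul_add]; congr 1; abel

theorem Am_left {X Y W : YObj k} (a : Fin 4) (M : Matrix W.J Y.J (LL k)) (N : Matrix Y.J X.J (LL k))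
    (h : Tm Y W a M = M) : Am X W a (M * N) = M * Am X Y a N := by
  rw [Am, Am, Tm_mul X Y W, h, ← Matrix.mul_add, Matrix.mul_smul]

theorem Am_right {X Y W : YObj k} (a : Fin 4) (M : Matrix W.J Y.J (LL k)) (N : Matrix Y.J X.J (LL k))
    (h : Tm X Y a N = N) : Am X W a (M * N) = Am Y W a M * N := by
  rw [Am, Am, Tm_mul X Y W, h, ← Matrix.add_mul, Matrix.smul_mul]

theorem av_add (X Y : YObj k) (φ ψ : X.G.V →ₗ[LL k] Y.G.V) :
    av X Y (φ + ψ) = av X Y φ + av X Y ψ := by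
  apply YObj.mat_injective
  rw [mat_av, YObj.mat_add, YObj.mat_add, mat_av, mat_av, Am_add, Am_add, Am_add, Am_add]

theorem av_left {X Y W : YObj k} {σ : Finset GW} (φ : X.G.V →ₗ[LL k] Y.G.V) (ψ : Y.G.V →ₗ[LL k] W.G.V)
    (h : ψ ∈ Y.H W σ) : av X W (ψ ∘ₗ φ) = ψ ∘ₗ av X Y φ := by
  apply YObj.mat_injective
  rw [mat_av, YObj.mat_comp, YObj.mat_comp, mat_av, Am_left _ _ _ (Tm_of_mem h 3),
    Am_left _ _ _ (Tm_of_mem h 2), Am_left _ _ _ (Tm_of_mem h 1), Am_left _ _ _ (Tm_of_mem h 0)]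

theorem av_right {X Y W : YObj k} {σ : Finset GW} (φ : X.G.V →ₗ[LL k] Y.G.V) (ψ : W.G.V →ₗ[LL k] X.G.V)
    (h : ψ ∈ W.H X σ) : av W Y (φ ∘ₗ ψ) = av X Y φ ∘ₗ ψ := by
  apply YObj.mat_injective
  rw [mat_av, YObj.mat_comp, YObj.mat_comp, mat_av, Am_right _ _ _ (Tm_of_mem h 3),
    Am_right _ _ _ (Tm_of_mem h 2), Am_right _ _ _ (Tm_of_mem h 1), Am_right _ _ _ (Tm_of_mem h 0)]

/-- D5 -/
theorem avLem : AvLem.{u} := by
  intro k _ h2 X Y
  refine ⟨?_, ?_, av_add X Y, ?_, ?_, ?_, ?_⟩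
  · intro σ φ h
    have h3 : HM X Y (YObj.mat φ) := fun i j => (h i j).1
    have hD : DM X Y σ (YObj.mat φ) := fun i j => (h i j).2
    have hA := (((h3.A 3).A 2).A 1).A 0
    have hB := (((hD.A 3).A 2).A 1).A 0
    have hT : ∀ a, Tm X Y a (YObj.mat (av X Y φ)) = YObj.mat (av X Y φ) := by
      intro a
      rw [mat_av]
      fin_cases a
      · exact (((h3.A 3).A 2).A 1).Tm_Am 0
      · change Tm X Y 1 _ = _
        rw [(((h3.A 3).A 2).A 1).Tm_Am' 1 0, ((h3.A 3).A 2).Tm_Am 1]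
      · change Tm X Y 2 _ = _
        rw [(((h3.A 3).A 2).A 1).Tm_Am' 2 0, ((h3.A 3).A 2).Tm_Am' 2 1, (h3.A 3).Tm_Am 2]
      · change Tm X Y 3 _ = _
        rw [(((h3.A 3).A 2).A 1).Tm_Am' 3 0, ((h3.A 3).A 2).Tm_Am' 3 1, (h3.A 3).Tm_Am' 3 2, h3.Tm_Am 3]
    refine ⟨fun i j => ?_, fun a => ?_⟩
    · rw [mat_av]
      exact ⟨hA i j, hB i j⟩
    · have h5 := hT a
      change ml (Y.rho a) * (YObj.mat (av X Y φ)).map (ga k a) = YObj.mat (av X Y φ) * ml (X.rho a)
      conv_rhs => rw [← h5, Tm]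
      rw [Matrix.mul_assoc, ← ml_mul, rho_inv_mul, ml_one, Matrix.mul_one]
  · intro n φ h i
    have hX : X.G.pr i ∈ X.H X ∅ := (ysys k).pr_mem X ∅ i
    have hY : Y.G.pr (i + n) ∈ Y.H Y ∅ := (ysys k).pr_mem Y ∅ (i + n)
    rw [← av_right φ _ hX, h i, av_left φ _ hY]
  · intro c φ
    exact map_zsmul (AddMonoidHom.mk' (av X Y) (av_add X Y)) c φ
  · intro σ φ h
    apply YObj.mat_injective
    have hT := fun a => Tm_of_mem h a
    rw [mat_av, Am_fix h2 3 (hT 3), Am_fix h2 2 (hT 2), Am_fix h2 1 (hT 1), Am_fix h2 0 (hT 0)]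
  · intro W σ φ ψ h
    exact av_left φ ψ h
  · intro W σ φ ψ h
    exact av_right φ ψ h

end

end Pool.Agent.Helper14.RZ
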